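import Pool.Agent.Run7.h100.UN.Fin
import Pool.Agent.Run7.h100.UN.UNIT
import Pool.Agent.Run7.h100.UN.POLYE
import Pool.Agent.Run7.h586.UN.INT
import Pool.Agent.Run7.h594.UN.SPLIT
import Pool.Agent.Run7.h646.UN.HEN
import Pool.Agent.Run7.h646.UN.ALPHAE
import Pool.Agent.Run7.h662.UN.RECE
import Pool.Agent.Run7.h824.UN.MAH
import Pool.Agent.Run7.h958.UN.LOW
import Pool.Agent.Run7.h220.UN.LOC
import Pool.Agent.Run7.h590.UN.DYN
import Pool.Agent.Run7.h459.UN.GOOD
import Pool.Agent.Run7.h111.UN.PT
import Pool.Agent.Run7.h109.UN.FIN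

/-!
# Property (USB) with infinitely many elements of arbitrarily small height

Q1 of MP_8d2e9f_nt, negative answer in a strong form. For every `ε > 0` there are an infinite set `S` of
primes and a Galois extension `F` of `ℚ`, totally `p`-adic for all `p` in `S`, such that `F` and all its
finite extensions have property (USB), while infinitely many elements of `F` have height at most `ε`; so
`F` does not have the Northcott property. Fields are subfields of `AlgebraicClosure ℚ`, which are the
intermediate fields of `AlgebraicClosure ℚ` over `ℚ`. The definitions are those of the starting file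
`PNotUSB` (which answers Q2).

The field `F` consists of all algebraic numbers which are totally `p`-adic for all `p` in `S`. The set `S`
and numbers `α_1, α_2, …` of height at most `ε` are chosen in turn: all algebraic numbers listed so far
and `α_1, …, α_n` are totally `p`-adic for the next prime `p` (infinitely many primes split completely in a
number field), which is so large that the sum of the `log p / (p - 1)` over the chosen primes stays below
`ε / 3`, and `α_(n+1)` is a zero of an irreducible monic integral polynomial of large degree `d` with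
coefficients of size `exp (ε d)`, which is congruent to `∏_{j < d} (X - j)` modulo high powers of the
primes chosen so far.

Property (USB): let `f` be a rational function of degree `d ≥ 2`, `|H - h| ≤ C`, and let `p` in `S` be a
large prime of good reduction with the coefficients of `f` totally `p`-adic, `N = (p ^ 2)!`. For `z` in the
projective line over `F` the residue fields above `p` of `ℚ (f, z)` have `p` elements and `p` is unramified,
so `f^(2N) z` and `f^N z` are congruent modulo `p`; if they are different the product formula gives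
`log p ≤ log 2 + h (f^(2N) z) + h (f^N z) ≤ log 2 + 2 C + (d^(2N) + d^N) H z`. The compositum of `F` with a
number field is totally `p`-adic for all but finitely many `p` in `S`, and the same proof applies.

Pieces of the proof by helper586, helper594, helper646, helper762, helper824, helper958, helper220,
helper590, helper459, helper111, helper109, helper354, helper662; second copies by helper227, helper305,
helper112, helper569, helper939.
-/

set_option autoImplicit false

namespace Pool.Agent.Results.MP_8d2e9f_nt.USBSmallHeights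

open Polynomial OnePoint

/-- the absolute logarithmic Weil height on the projective line over the algebraic numbers:
it is `0` at infinity and Mathlib's `NumberField.absLogHeight₁` elsewhere -/
noncomputable def weilHeight (z : OnePoint (AlgebraicClosure ℚ)) : ℝ :=
  z.elim 0 fun x => NumberField.absLogHeight₁ x

/-- the degree of a rational function -/
noncomputable def degree (f : RatFunc (AlgebraicClosure ℚ)) : ℕ :=
  max f.num.natDegree f.denom.natDegree

open Classical in
/-- the self-map of the projective line defined by a rational function -/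
noncomputable def ratMap (f : RatFunc (AlgebraicClosure ℚ)) (z : OnePoint (AlgebraicClosure ℚ)) :
    OnePoint (AlgebraicClosure ℚ) :=
  z.elim
    (if f.denom.coeff (degree f) = 0 then ∞
      else ((f.num.coeff (degree f) / f.denom.coeff (degree f) : AlgebraicClosure ℚ) :
        OnePoint (AlgebraicClosure ℚ)))
    fun x => if f.denom.eval x = 0 then ∞
      else ((f.num.eval x / f.denom.eval x : AlgebraicClosure ℚ) : OnePoint (AlgebraicClosure ℚ))

/-- `H` is the canonical height of `f` -/
def IsCanonicalHeight (f : RatFunc (AlgebraicClosure ℚ))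
    (H : OnePoint (AlgebraicClosure ℚ) → ℝ) : Prop :=
  (∀ z, H (ratMap f z) = degree f * H z) ∧ ∃ C : ℝ, ∀ z, |H z - weilHeight z| ≤ C

/-- the preperiodic points: the forward orbit is finite -/
def PrePer (f : RatFunc (AlgebraicClosure ℚ)) : Set (OnePoint (AlgebraicClosure ℚ)) :=
  {z | (Set.range fun n : ℕ => (ratMap f)^[n] z).Finite}

/-- the points of the projective line over `F` -/
def P1 (F : IntermediateField ℚ (AlgebraicClosure ℚ)) : Set (OnePoint (AlgebraicClosure ℚ)) :=
  {z | z = ∞ ∨ ∃ x ∈ F, z = (x : OnePoint (AlgebraicClosure ℚ))}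

/-- the strong Bogomolov property relative to the canonical height `H` of `f` -/
def SB (F : IntermediateField ℚ (AlgebraicClosure ℚ)) (f : RatFunc (AlgebraicClosure ℚ))
    (H : OnePoint (AlgebraicClosure ℚ) → ℝ) : Prop :=
  (∃ c : ℝ, 0 < c ∧ ∀ z ∈ P1 F, z ∉ PrePer f → c ≤ H z) ∧ (P1 F ∩ PrePer f).Finite

/-- property (USB) -/
def USB (F : IntermediateField ℚ (AlgebraicClosure ℚ)) : Prop :=
  ∀ f : RatFunc (AlgebraicClosure ℚ), 2 ≤ degree f →
    ∀ H : OnePoint (AlgebraicClosure ℚ) → ℝ, IsCanonicalHeight f H → SB F f H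

/-- the Northcott property (N) -/
def Northcott (F : IntermediateField ℚ (AlgebraicClosure ℚ)) : Prop :=
  ∀ B : ℝ, {x : AlgebraicClosure ℚ | x ∈ F ∧ NumberField.absLogHeight₁ x ≤ B}.Finite

/-- `x` is totally `p`-adic: all its images in an algebraic closure of `ℚ_[p]` lie in `ℚ_[p]` -/
def TotallyPadic (p : ℕ) (x : AlgebraicClosure ℚ) : Prop :=
  ∀ (_ : Fact p.Prime) (σ : AlgebraicClosure ℚ →+* AlgebraicClosure ℚ_[p]),
    ∃ y : ℚ_[p], σ x = algebraMap ℚ_[p] (AlgebraicClosure ℚ_[p]) y

theorem usb_mono {F F' : IntermediateField ℚ (AlgebraicClosure ℚ)} (h : F ≤ F') (hF' : USB F') : USB F := by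
  intro f hf H hH
  obtain ⟨⟨c, hc, h1⟩, h2⟩ := hF' f hf H hH
  have hsub : P1 F ⊆ P1 F' := by
    rintro z (rfl | ⟨x, hx, rfl⟩)
    · exact Or.inl rfl
    · exact Or.inr ⟨x, h hx, rfl⟩
  exact ⟨⟨c, hc, fun z hz => h1 z (hsub hz)⟩, h2.subset (Set.inter_subset_inter_left _ hsub)⟩

theorem usb_TS (S : Set ℕ) (hSi : S.Infinite) (hSp : ∀ p ∈ S, p.Prime)
    (hSe : ∀ x : AlgebraicClosure ℚ, {p | p ∈ S ∧ ¬ Run7.h100.UN.TPa p x}.Finite) :
    USB (Run7.h100.UN.TS S) := by
  intro f hf H hH
  have hPT := Run7.h111.UN.t_PT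
  exact Run7.h100.UN.usb Run7.h958.UN.t_LOW (Run7.h220.UN.t_LOC Run7.h586.UN.t_INT)
    Run7.h590.UN.t_DYN (Run7.h459.UN.t_GOOD Run7.h100.UN.t_UNIT) hPT (Run7.h109.UN.t_FIN hPT)
    S hSi hSp hSe f.num f.denom (degree f) f.isCoprime_num_denom rfl hf H hH

theorem usb_sup (S : Set ℕ) (hSi : S.Infinite) (hSp : ∀ p ∈ S, p.Prime)
    (hSe : ∀ x : AlgebraicClosure ℚ, {p | p ∈ S ∧ ¬ Run7.h100.UN.TPa p x}.Finite)
    (K : IntermediateField ℚ (AlgebraicClosure ℚ)) (hK : FiniteDimensional ℚ K) :
    USB (Run7.h100.UN.TS S ⊔ K) := by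
  have b := Module.finBasis ℚ K
  obtain ⟨S', hS'⟩ : ∃ S' : Set ℕ, S' = {p | p ∈ S ∧ ∀ i, Run7.h100.UN.TPa p (b i : AlgebraicClosure ℚ)} :=
    ⟨_, rfl⟩
  have hfin : (⋃ i, {p | p ∈ S ∧ ¬ Run7.h100.UN.TPa p (b i : AlgebraicClosure ℚ)}).Finite :=
    Set.finite_iUnion fun i => hSe _
  have hinf : S'.Infinite := by
    refine (hSi.sdiff hfin).mono ?_
    rintro p ⟨hp, hp2⟩
    rw [hS']
    refine ⟨hp, fun i => ?_⟩
    by_contra h
    exact hp2 (Set.mem_iUnion.2 ⟨i, hp, h⟩)
  have hss : ∀ p ∈ S', p ∈ S := by
    rw [hS']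
    exact fun p hp => hp.1
  have hbi : ∀ p ∈ S', ∀ i, Run7.h100.UN.TPa p (b i : AlgebraicClosure ℚ) := by
    rw [hS']
    exact fun p hp => hp.2
  have h1 : Run7.h100.UN.TS S ≤ Run7.h100.UN.TS S' := fun x hx =>
    Run7.h100.UN.mem_TS.2 fun p hp => Run7.h100.UN.mem_TS.1 hx p (hss p hp)
  have h2 : K ≤ Run7.h100.UN.TS S' := by
    intro x hx
    have e : ∑ i, b.repr ⟨x, hx⟩ i • (b i : AlgebraicClosure ℚ) = x := by
      have h := congrArg (fun y => K.val y) (b.sum_repr ⟨x, hx⟩)
      simp only [map_sum] at h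
      exact h
    rw [← e]
    exact sum_mem fun i _ => (Run7.h100.UN.TS S').smul_mem
      (Run7.h100.UN.mem_TS.2 fun p hp => hbi p hp i)
  refine usb_mono (sup_le h1 h2) (usb_TS S' hinf (fun p hp => hSp p (hss p hp)) fun x => ?_)
  refine (hSe x).subset ?_
  rintro p ⟨hp, hpx⟩
  exact ⟨hss p hp, hpx⟩

/-- For every `ε > 0` there are an infinite set `S` of primes and a Galois extension `F` of `ℚ` inside
`AlgebraicClosure ℚ`, all of whose elements are totally `p`-adic for all `p` in `S`, such that `F ⊔ K` has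
property (USB) for every number field `K` (so all finite extensions of `F` have (USB)), in particular `F` has
(USB), while infinitely many elements of `F` have height at most `ε`, so that `F` does not have the
Northcott property. -/
theorem result : ∀ ε : ℝ, 0 < ε → ∃ (F : IntermediateField ℚ (AlgebraicClosure ℚ)) (S : Set ℕ),
    IsGalois ℚ F ∧ S.Infinite ∧ (∀ p ∈ S, p.Prime ∧ ∀ x ∈ F, TotallyPadic p x) ∧
    USB F ∧ (∀ K : IntermediateField ℚ (AlgebraicClosure ℚ), FiniteDimensional ℚ K → USB (F ⊔ K)) ∧
    {x : AlgebraicClosure ℚ | x ∈ F ∧ NumberField.absLogHeight₁ x ≤ ε}.Infinite ∧ ¬ Northcott F := by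
  intro ε hε
  obtain ⟨S, hSi, hSp, hSe, hα⟩ := Run7.h662.UN.t_RECE Run7.h594.UN.t_SPLIT
    (Run7.h646.UN.t_ALPHAE (Run7.h100.UNE.t_POLYE Run7.h646.UN.t_HEN) Run7.h824.UN.t_MAH) ε hε
  have hinf : {x : AlgebraicClosure ℚ | x ∈ Run7.h100.UN.TS S ∧
      NumberField.absLogHeight₁ x ≤ ε}.Infinite := by
    refine hα.mono fun α h => ⟨h.2, ?_⟩
    rw [Pool.Agent.H58P.absLogHeight₁_eq]
    exact h.1
  exact ⟨Run7.h100.UN.TS S, S, Run7.h100.UN.galois_TS S, hSi,
    fun p hp => ⟨hSp p hp, fun x hx => Run7.h100.UN.mem_TS.1 hx p hp⟩, usb_TS S hSi hSp hSe,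
    usb_sup S hSi hSp hSe, hinf, fun h => hinf (h ε)⟩

end Pool.Agent.Results.MP_8d2e9f_nt.USBSmallHeights
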